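import Pool.Agent.K3h33.MC.Fin

namespace Pool.Agent.Results.MP_3a8f7c_lc.MinimalConeExists

open Pool.Agent.R679.Tr Pool.Agent.K3h33.MC

/-- There is a rational cone that contains a non-regular bounded language (even a unary one) and
is minimal with respect to bounded languages of degree `k` for every `k`. -/
theorem result : ∃ C : Family, IsCone C ∧
    (∃ (n : ℕ) (L : Language (Fin n)), L ∈ C n ∧ BoundedDeg 1 L ∧ ¬ L.IsRegular) ∧
    ∀ k : ℕ, MinimalWrt k C :=
  ⟨gen SL, isCone_gen SL, ⟨1, SL, (mem_gen_iff SL SL).2 ⟨idT (Fin 1), (image_id SL).symm⟩,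
    SL_bounded, SL_not_regular⟩, minimal_all⟩

end Pool.Agent.Results.MP_3a8f7c_lc.MinimalConeExists
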